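import Pool.Agent.J4.H24.BT.Dg
import Pool.Agent.R431.B.Frb
import Pool.Agent.R431.B.Ap

/-!
# The Euler factors of `E ⊗ M`
-/

set_option autoImplicit false
set_option linter.unusedSectionVars false

namespace Pool.Agent.J4.H24.BT

open NumberField IsDedekindDomain

open scoped Pointwise

open Pool.Agent.Y696 (E27)

open Pool.Agent.R431.B

section defs

variable {K : Type} [Field K] [NumberField K] {κ : Type} [Fintype κ] [DecidableEq κ]

/-- The action of the Frobenius automorphism at `v` on the vectors of `ℂ^g` fixed by the inertia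
group of `v`, extended by zero: the average of the matrices `ρ(σ)` over all the Frobenius
automorphisms `σ` at `v`. -/
noncomputable def frobM (ρ : (K ≃ₐ[ℚ] K) →* GL κ ℂ) (v : HeightOneSpectrum (𝓞 K)) :
    Matrix κ κ ℂ :=
  (Nat.card (FrobSet v) : ℂ)⁻¹ •
    ∑ᶠ σ : FrobSet v, (ρ σ.1 : Matrix κ κ ℂ)

/-- The Euler factor of the `L`-function of `A = E ⊗ M` at the prime number `p`, where `v` is a
place of `K` above `p`: `det (1 - a_p p^(-s) Φ + p^(1 - 2 s) Φ²)⁻¹` for `Φ = frobM ρ v`, without the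
last term if `p` divides the discriminant of `E`; `a_p = p - pts` as `pts` does not count the point
at infinity. -/
noncomputable def euler (ρ : (K ≃ₐ[ℚ] K) →* GL κ ℂ) (W : WeierstrassCurve ℤ)
    (v : HeightOneSpectrum (𝓞 K)) (s : ℂ) (p : ℕ) : ℂ :=
  (1 - ((((p : ℤ) - pts W (ZMod p) : ℤ) : ℂ) * (p : ℂ) ^ (-s)) • frobM ρ v +
    (if (p : ℤ) ∣ W.Δ then 0 else (p : ℂ) ^ (1 - 2 * s)) • frobM ρ v ^ 2).det⁻¹

end defs

section mats

variable {κ : Type} [Fintype κ] [DecidableEq κ]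

lemma det_sandwich {T T' X : Matrix κ κ ℂ} (h : T * T' = 1) :
    (T * X * T').det = X.det := by
  have h1 : T.det * T'.det = 1 := by rw [← Matrix.det_mul, h, Matrix.det_one]
  rw [Matrix.det_mul, Matrix.det_mul]
  linear_combination X.det * h1

lemma quad_sandwich {T T' A : Matrix κ κ ℂ} (h : T * T' = 1) (h' : T' * T = 1)
    (a b : ℂ) :
    (1 - a • (T * A * T') + b • (T * A * T') ^ 2).det = (1 - a • A + b • A ^ 2).det := by
  have e : 1 - a • (T * A * T') + b • (T * A * T') ^ 2 = T * (1 - a • A + b • A ^ 2) * T' := by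
    have e1 : (T * A * T') ^ 2 = T * A ^ 2 * T' := by
      calc (T * A * T') ^ 2 = T * A * (T' * T) * A * T' := by
            rw [pow_two]; simp only [Matrix.mul_assoc]
        _ = T * A ^ 2 * T' := by rw [h', Matrix.mul_one, pow_two]; simp only [Matrix.mul_assoc]
    rw [e1, Matrix.mul_add, Matrix.add_mul, Matrix.mul_sub, Matrix.sub_mul, Matrix.mul_one, h,
      Matrix.mul_smul, Matrix.smul_mul, Matrix.mul_smul, Matrix.smul_mul]
  rw [e, det_sandwich h]

lemma lin_sandwich {T T' A : Matrix κ κ ℂ} (h : T * T' = 1) (h' : T' * T = 1)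
    (a : ℂ) : (1 - a • (T * A * T')).det = (1 - a • A).det := by
  have := quad_sandwich (A := A) h h' a 0
  simpa using this

lemma quad_fac (A : Matrix κ κ ℂ) (x y : ℂ) :
    (1 - (x + y) • A + (x * y) • A ^ 2).det = (1 - x • A).det * (1 - y • A).det := by
  rw [← Matrix.det_mul]
  congr 1
  rw [Matrix.sub_mul, Matrix.one_mul, Matrix.mul_sub, Matrix.mul_one, Matrix.smul_mul,
    Matrix.mul_smul, smul_smul, add_smul, pow_two]
  abel

end mats

section frobs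

variable {K : Type} [Field K] [NumberField K] {κ : Type} [Fintype κ] [DecidableEq κ] (ρ : (K ≃ₐ[ℚ] K) →* GL κ ℂ)

lemma frobM_single {v : HeightOneSpectrum (𝓞 K)} {σ : K ≃ₐ[ℚ] K} (h : FrobSet v = {σ}) :
    frobM ρ v = cM (ρ σ) := by
  unfold frobM
  have h1 : (∑ᶠ τ : FrobSet v, (ρ τ.1 : Matrix κ κ ℂ)) =
      ∑ᶠ τ ∈ FrobSet v, (ρ τ : Matrix κ κ ℂ) :=
    finsum_set_coe_eq_finsum_mem (f := fun τ : K ≃ₐ[ℚ] K =>
      (ρ τ : Matrix κ κ ℂ)) (FrobSet v)
  rw [h1, h, finsum_mem_singleton]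
  have h2 : Nat.card ({σ} : Set (K ≃ₐ[ℚ] K)) = 1 := by simp
  rw [h2]
  simp [cM]

/-- the equivalence of the Frobenius automorphisms at conjugate places -/
def frobEquiv {v w : HeightOneSpectrum (𝓞 K)} {τ : K ≃ₐ[ℚ] K}
    (hw : w.asIdeal = τ • v.asIdeal) : FrobSet v ≃ FrobSet w where
  toFun σ := ⟨τ * σ.1 * τ⁻¹, frob_conj hw σ.2⟩
  invFun σ := ⟨τ⁻¹ * σ.1 * τ, by
    rw [← frob_conj_iff hw]
    have e : τ * (τ⁻¹ * σ.1 * τ) * τ⁻¹ = σ.1 := by group
    rw [e]
    exact σ.2⟩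
  left_inv σ := by
    apply Subtype.ext
    show τ⁻¹ * (τ * σ.1 * τ⁻¹) * τ = σ.1
    group
  right_inv σ := by
    apply Subtype.ext
    show τ * (τ⁻¹ * σ.1 * τ) * τ⁻¹ = σ.1
    group

lemma frobM_conj {v w : HeightOneSpectrum (𝓞 K)} {τ : K ≃ₐ[ℚ] K}
    (hw : w.asIdeal = τ • v.asIdeal) :
    frobM ρ w = cM (ρ τ) * frobM ρ v * cM (ρ τ⁻¹) := by
  classical
  have hfin : Finite (FrobSet v) := inferInstance
  have hfin' : Finite (FrobSet w) := inferInstance
  let _ : Fintype (FrobSet v) := Fintype.ofFinite _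
  let _ : Fintype (FrobSet w) := Fintype.ofFinite _
  unfold frobM
  rw [finsum_eq_sum_of_fintype, finsum_eq_sum_of_fintype, Nat.card_congr (frobEquiv hw),
    ← (frobEquiv hw).sum_comp, Matrix.mul_smul, Matrix.smul_mul, Matrix.mul_sum, Matrix.sum_mul]
  congr 1
  refine Finset.sum_congr rfl fun σ _ => ?_
  show cM (ρ (τ * σ.1 * τ⁻¹)) = cM (ρ τ) * cM (ρ σ.1) * cM (ρ τ⁻¹)
  rw [map_mul, map_mul, cM_mul, cM_mul]

lemma cM_inv (τ : K ≃ₐ[ℚ] K) : cM (ρ τ) * cM (ρ τ⁻¹) = 1 := by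
  rw [← cM_mul, ← map_mul, mul_inv_cancel, map_one, cM_one]

lemma cM_inv' (τ : K ≃ₐ[ℚ] K) : cM (ρ τ⁻¹) * cM (ρ τ) = 1 := by
  rw [← cM_mul, ← map_mul, inv_mul_cancel, map_one, cM_one]

/-- the Euler factor does not depend on the place -/
lemma euler_place [IsGalois ℚ K] {v w : HeightOneSpectrum (𝓞 K)} {p : ℕ} (hp : p.Prime)
    (hv : (p : 𝓞 K) ∈ v.asIdeal) (hw : (p : 𝓞 K) ∈ w.asIdeal) (W : WeierstrassCurve ℤ) (s : ℂ) :
    euler ρ W w s p = euler ρ W v s p := by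
  obtain ⟨τ, hτ⟩ := trans_over hp hv hw
  unfold euler
  rw [frobM_conj ρ hτ, quad_sandwich (cM_inv ρ τ) (cM_inv' ρ τ)]

end frobs

end Pool.Agent.J4.H24.BT
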