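import Pool.Agent.R431.B.An
import Pool.Agent.J4.H24.BT.Eul

/-!
# The Euler factors of `E ⊗ M` and of the Hecke `L`-functions
-/

set_option autoImplicit false
set_option linter.unusedSectionVars false

namespace Pool.Agent.J4.H24.BT

open NumberField IsDedekindDomain Filter Topology

open scoped Pointwise

open Pool.Agent.Y696 Pool.Agent.W192.HK Pool.Agent.TH936.CM Pool.Agent.TH936.PU

open Pool.Agent.W192.CM (nu)

open Pool.Agent.R431.B

section

variable {K : Type} [Field K] [NumberField K] [IsGalois ℚ K] {ι : eis →+* 𝓞 K} {G : Type}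
  [CommGroup G] [Finite G] [MulSemiringAction G (𝓞 K)] {c : eis}
  {art : (eis ⧸ (sp c : Ideal eis))ˣ →* G} {i : G →* (K ≃ₐ[ℚ] K)} {κ : Type} [Fintype κ] [DecidableEq κ]

section rep

variable (ρ : (K ≃ₐ[ℚ] K) →* GL κ ℂ) {b : Module.Basis κ ℂ (κ → ℂ)}
  {χ : κ → MulChar G ℂ}

lemma det_chars (hb : ∀ (u : G) j, Eig (b j) (cM (ρ (i u))) (χ j u)) (u : G) (y : ℂ) :
    (1 - y • cM (ρ (i u))).det = ∏ j, (1 - y * χ j u) :=
  det_eig b fun j => (Eig.one (b j)).sub ((hb u j).smul y)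

/-- the factors at the primes `p = 1` modulo `3` that do not divide `c` -/
theorem factor_mod1 (D : Dat ι G c art) (hFD : FD i) {m : ℕ} (hc : c = (m : eis))
    (hb : ∀ (u : G) j, Eig (b j) (cM (ρ (i u))) (χ j u)) {p : ℕ} (hp : p.Prime)
    {v : HeightOneSpectrum (𝓞 K)} (hv : (p : 𝓞 K) ∈ v.asIdeal) (h1 : p % 3 = 1)
    (hcv : ι c ∉ v.asIdeal) (s : ℂ) :
    fibProd (fun P => ∏ j, loc (eta art (χ j)) P s) p = euler ρ (E27 ℤ) v s p := by
  have hp3 : p ≠ 3 := by rintro rfl; norm_num at h1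
  set P := bel ι v with hPdef
  have hP : (p : eis) ∈ P.asIdeal := (mem_bel_nat v p).2 hv
  obtain ⟨π, hπ, hπ1, hN, hψ, hψ', hn, hn', hne, hall⟩ := over_mod1 hp hP h1
  have hcP : c ∉ P.asIdeal := by rw [hPdef, mem_bel]; exact hcv
  have hcP' : c ∉ (cjP P).asIdeal := by
    rw [hc, mem_cjP_nat, ← hc]
    exact hcP
  obtain ⟨u, hu⟩ := (unit_iff (c := c) π).2 (cop_gen hπ hcP)
  have hπ' : (cjP P).asIdeal = sp (cj π) := cjP_span hπ
  obtain ⟨u', hu'⟩ := (unit_iff (c := c) (cj π)).2 (cop_gen hπ' hcP')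
  have hF := frob_art D hFD hp hv h1 hcv hπ hu
  -- the conjugate place
  obtain ⟨w, hw⟩ := exists_over D (cjP P)
  have hwp : (p : 𝓞 K) ∈ w.asIdeal := by
    rw [← mem_bel_nat (ι := ι), hw, mem_cjP_nat]
    exact hP
  have hcw : ι c ∉ w.asIdeal := by
    rw [← mem_bel, hw]
    exact hcP'
  have hF' := frob_art D hFD hp hwp h1 hcw (by rw [hw]; exact hπ') hu'
  obtain ⟨τ, hτ⟩ := trans_over hp hv hwp
  have hconj : τ * i (art u) * τ⁻¹ = i (art u') := by
    have h2 : i (art u) ∈ FrobSet v := by rw [hF]; rfl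
    have h3 := frob_conj hτ h2
    rw [hF'] at h3
    exact h3
  set X : ℂ := (p : ℂ) ^ (-s) with hX
  set A := cM (ρ (i (art u))) with hA
  have hA' : cM (ρ (i (art u'))) = cM (ρ τ) * A * cM (ρ τ⁻¹) := by
    rw [← hconj, map_mul, map_mul, cM_mul, cM_mul]
  -- the left side
  have hL1 : ∏ j, loc (eta art (χ j)) P s = ((1 - ((π : ℂ) * X) • A).det)⁻¹ := by
    rw [hA, det_chars ρ hb, ← Finset.prod_inv_distrib]
    refine Finset.prod_congr rfl fun j _ => ?_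
    rw [loc_val D (χ j) hπ hu, hψ, hn]
    congr 1
    push_cast
    rw [hX]
    ring
  have hL2 : ∏ j, loc (eta art (χ j)) (cjP P) s =
      ((1 - ((starRingEnd ℂ) (π : ℂ) * X) • A).det)⁻¹ := by
    have h2 : (1 - ((starRingEnd ℂ) (π : ℂ) * X) • A).det =
        (1 - ((starRingEnd ℂ) (π : ℂ) * X) • cM (ρ (i (art u')))).det := by
      rw [hA', lin_sandwich (cM_inv ρ τ) (cM_inv' ρ τ)]
    rw [h2, det_chars ρ hb, ← Finset.prod_inv_distrib]
    refine Finset.prod_congr rfl fun j _ => ?_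
    rw [loc_val D (χ j) hπ' hu', hψ', hn']
    congr 1
    push_cast
    rw [hX]
    ring
  rw [fib_mod1 hne hP hall, hL1, hL2, ← mul_inv, ← quad_fac]
  unfold euler
  rw [frobM_single ρ hF, ← hA, if_neg (dvd_disc hp hp3), cpow_quad hp, ← hX]
  have hpc : (p : ℂ) = (π : ℂ) * (starRingEnd ℂ) (π : ℂ) := by
    have h2 := congrArg (fun t : eis => (t : ℂ)) hN
    push_cast at h2
    rw [cj_coe] at h2
    exact h2.symm
  have ha : ((((p : ℤ) - pts (E27 ℤ) (ZMod p) : ℤ) : ℂ)) = (π : ℂ) + (starRingEnd ℂ) (π : ℂ) := by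
    push_cast
    rw [pts_mod1 hp h1 hP hπ hπ1 hN]
    ring
  rw [ha]
  have e1 : (π : ℂ) * X + (starRingEnd ℂ) (π : ℂ) * X = ((π : ℂ) + (starRingEnd ℂ) (π : ℂ)) * X := by
    ring
  have e2 : (π : ℂ) * X * ((starRingEnd ℂ) (π : ℂ) * X) = (p : ℂ) * X ^ 2 := by
    rw [hpc]
    ring
  rw [e1, e2]

/-- the factors at the primes `p = 2` modulo `3` -/
theorem factor_mod2 (D : Dat ι G c art) (hFD : FD i)
    (hb : ∀ (u : G) j, Eig (b j) (cM (ρ (i u))) (χ j u)) {p : ℕ} (hp : p.Prime)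
    {v : HeightOneSpectrum (𝓞 K)} (hv : (p : 𝓞 K) ∈ v.asIdeal) (h1 : p % 3 = 2)
    (hcv : ι c ∉ v.asIdeal) (s : ℂ) :
    fibProd (fun P => ∏ j, loc (eta art (χ j)) P s) p = euler ρ (E27 ℤ) v s p := by
  have hp3 : p ≠ 3 := by rintro rfl; norm_num at h1
  set P := bel ι v with hPdef
  have hP : (p : eis) ∈ P.asIdeal := (mem_bel_nat v p).2 hv
  obtain ⟨hψ, hn, hall⟩ := over_mod2 hp hP h1
  obtain ⟨hcard, hsp⟩ := card_mod2 hp hP h1
  have hcP : c ∉ P.asIdeal := by rw [hPdef, mem_bel]; exact hcv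
  obtain ⟨u, hu⟩ := (unit_iff (c := c) (p : eis)).2 (cop_gen hsp hcP)
  obtain ⟨σ, hσ⟩ := frob_nonempty v
  have hF : FrobSet v = {σ} := by
    apply Set.eq_singleton_iff_unique_mem.2
    refine ⟨hσ, fun σ' hσ' => ?_⟩
    obtain ⟨τ, h3, h4⟩ := hFD.quot p hp v hv hp3 σ' hσ' _ hσ
    rw [D.unr v hcv τ h4, map_one] at h3
    exact mul_inv_eq_one.1 h3.symm
  obtain ⟨τ, hτ, hτ2⟩ := hFD.mod2 p hp v hv h1 σ hσ
  have hart : τ = art u := by
    have h2 : τ * (art u)⁻¹ = 1 := by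
      apply D.unr v hcv
      intro x
      have h3 := D.frob (p : eis) (prime_gen hsp) u hu v (by
        rw [map_natCast]
        exact hv) ((art u)⁻¹ • x)
      rw [← hsp, hcard] at h3
      have h4 := v.asIdeal.sub_mem (hτ2 ((art u)⁻¹ • x)) h3
      rw [sub_sub_sub_cancel_right, smul_inv_smul, ← mul_smul] at h4
      exact h4
    exact mul_inv_eq_one.1 h2
  rw [hart] at hτ
  set X : ℂ := (p : ℂ) ^ (-s) with hX
  rw [fib_mod2 hP hall]
  unfold euler
  rw [frobM_single ρ hF, if_neg (dvd_disc hp hp3), cpow_quad hp, ← hX]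
  have ha : ((((p : ℤ) - pts (E27 ℤ) (ZMod p) : ℤ) : ℂ)) = 0 := by
    rw [pts_other hp (by omega)]
    simp
  have hsq : cM (ρ σ) ^ 2 = cM (ρ (i (art u))) := by
    rw [hτ, map_mul, cM_mul, pow_two]
  rw [ha, zero_mul, zero_smul, sub_zero, hsq]
  have hdet : (1 + ((p : ℂ) * X ^ 2) • cM (ρ (i (art u)))).det =
      ∏ j, (1 - (-((p : ℂ) * X ^ 2)) * χ j (art u)) := by
    rw [← det_chars ρ hb]
    congr 1
    rw [neg_smul, sub_neg_eq_add]
  rw [hdet, ← Finset.prod_inv_distrib]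
  refine Finset.prod_congr rfl fun j _ => ?_
  rw [loc_val D (χ j) hsp hu, hψ, hn]
  congr 1
  have e1 : (((p : ℝ) ^ 2 : ℝ) : ℂ) ^ (-s) = X ^ 2 := by
    push_cast
    rw [pow_two, Complex.natCast_mul_natCast_cpow, hX, pow_two]
  rw [e1]
  ring

/-- the factor at three -/
theorem factor_three (v : HeightOneSpectrum (𝓞 K)) (s : ℂ) :
    fibProd (fun P => ∏ j, loc (eta art (χ j)) P s) 3 = euler ρ (E27 ℤ) v s 3 := by
  rw [fib_one]
  · unfold euler
    have ha : (((((3 : ℕ) : ℤ) - pts (E27 ℤ) (ZMod 3) : ℤ) : ℂ)) = 0 := by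
      rw [pts_other Nat.prime_three (by norm_num)]
      simp
    have hd : ((3 : ℕ) : ℤ) ∣ (E27 ℤ).Δ := by
      rw [disc27]
      norm_num
    rw [ha, if_pos hd]
    simp
  · intro P hP
    refine Finset.prod_eq_one fun j _ => loc_three (χ j) ?_ s
    exact_mod_cast hP

/-- the factors at the primes that divide `c` -/
theorem fib_c {p m : ℕ} (hc : c = (m : eis)) (hpm : p ∣ m) (s : ℂ) :
    fibProd (fun P => ∏ j, loc (eta art (χ j)) P s) p = 1 := by
  refine fib_one fun P hP => Finset.prod_eq_one fun j _ => loc_c (χ j) ?_ s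
  rw [hc]
  obtain ⟨k, rfl⟩ := hpm
  rw [Nat.cast_mul]
  exact P.asIdeal.mul_mem_right _ hP

end rep

end

end Pool.Agent.J4.H24.BT
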