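import Pool.Agent.R431.B.Dg

/-!
# Simultaneous diagonalisation of an action of a finite commutative group
-/

set_option autoImplicit false
set_option linter.unusedSectionVars false

namespace Pool.Agent.J4.H24.BT

open Pool.Agent.R431.B (eigSet span_eigSet)

section

variable {G : Type} [CommGroup G] [Finite G] {κ : Type} [Fintype κ] [DecidableEq κ]

lemma exists_basis (T : G →* Module.End ℂ (κ → ℂ)) :
    ∃ (b : Module.Basis κ ℂ (κ → ℂ)) (χ : κ → MulChar G ℂ),
      ∀ (u : G) i, T u (b i) = χ i u • b i := by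
  classical
  let b₀ := Module.Basis.ofSpan (span_eigSet T)
  have : Fintype ((linearIndepOn_empty ℂ id).extend (Set.empty_subset (eigSet T))) :=
    FiniteDimensional.fintypeBasisIndex b₀
  have hc : Fintype.card ((linearIndepOn_empty ℂ id).extend (Set.empty_subset (eigSet T))) =
      Fintype.card κ := by
    rw [← Module.finrank_eq_card_basis b₀]
    simp
  let b := b₀.reindex (Fintype.equivOfCardEq hc)
  have hb : ∀ i, b i ∈ eigSet T := by
    intro i
    rw [Module.Basis.reindex_apply]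
    exact Module.Basis.ofSpan_subset (span_eigSet T) ⟨_, rfl⟩
  choose χ hχ using hb
  exact ⟨b, χ, fun u i => hχ i u⟩

end

section mat

variable {κ : Type} [Fintype κ] [DecidableEq κ]

/-- the complex matrix -/
def cM (A : GL κ ℂ) : Matrix κ κ ℂ := (A : Matrix κ κ ℂ)

lemma cM_one : cM (1 : GL κ ℂ) = 1 := Units.val_one

lemma cM_mul (A B : GL κ ℂ) : cM (A * B) = cM A * cM B := Units.val_mul A B

/-- the eigenvector `b` of the matrix -/
def Eig (b : κ → ℂ) (A : Matrix κ κ ℂ) (l : ℂ) : Prop := A.mulVec b = l • b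

lemma Eig.add {b : κ → ℂ} {A B : Matrix κ κ ℂ} {l m : ℂ} (h : Eig b A l)
    (h' : Eig b B m) : Eig b (A + B) (l + m) := by
  unfold Eig at *
  rw [Matrix.add_mulVec, h, h', add_smul]

lemma Eig.sub {b : κ → ℂ} {A B : Matrix κ κ ℂ} {l m : ℂ} (h : Eig b A l)
    (h' : Eig b B m) : Eig b (A - B) (l - m) := by
  unfold Eig at *
  rw [Matrix.sub_mulVec, h, h', sub_smul]

lemma Eig.smul {b : κ → ℂ} {A : Matrix κ κ ℂ} {l : ℂ} (h : Eig b A l) (c : ℂ) :
    Eig b (c • A) (c * l) := by
  unfold Eig at *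
  rw [Matrix.smul_mulVec, h, mul_smul]

lemma Eig.mul {b : κ → ℂ} {A B : Matrix κ κ ℂ} {l m : ℂ} (h : Eig b A l)
    (h' : Eig b B m) : Eig b (A * B) (l * m) := by
  unfold Eig at *
  rw [← Matrix.mulVec_mulVec, h', Matrix.mulVec_smul, h, smul_smul, mul_comm]

lemma Eig.one (b : κ → ℂ) : Eig b 1 1 := by
  unfold Eig
  rw [Matrix.one_mulVec, one_smul]

lemma Eig.pow {b : κ → ℂ} {A : Matrix κ κ ℂ} {l : ℂ} (h : Eig b A l) (n : ℕ) :
    Eig b (A ^ n) (l ^ n) := by
  induction n with
  | zero => simpa using Eig.one b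
  | succ n ih =>
    rw [pow_succ, pow_succ]
    exact ih.mul h

lemma Eig.sum {ι : Type*} {b : κ → ℂ} {A : ι → Matrix κ κ ℂ} {l : ι → ℂ}
    (s : Finset ι) (h : ∀ i ∈ s, Eig b (A i) (l i)) : Eig b (∑ i ∈ s, A i) (∑ i ∈ s, l i) := by
  classical
  induction s using Finset.induction_on with
  | empty =>
    unfold Eig
    simp
  | insert a s ha ih =>
    rw [Finset.sum_insert ha, Finset.sum_insert ha]
    exact (h a (Finset.mem_insert_self a s)).add (ih fun i hi => h i (Finset.mem_insert_of_mem hi))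

lemma det_eig (b : Module.Basis κ ℂ (κ → ℂ)) {A : Matrix κ κ ℂ}
    {l : κ → ℂ} (h : ∀ i, Eig (b i) A (l i)) : A.det = ∏ i, l i := by
  have h1 : LinearMap.toMatrix b b (Matrix.toLin' A) = Matrix.diagonal l := by
    ext i j
    rw [LinearMap.toMatrix_apply, Matrix.toLin'_apply, h j, map_smul]
    simp only [Module.Basis.repr_self, Finsupp.smul_apply, Finsupp.single_apply, smul_eq_mul,
      Matrix.diagonal_apply]
    by_cases hij : i = j
    · subst hij
      simp
    · rw [if_neg (fun h => hij h.symm), if_neg hij, mul_zero]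
  rw [← LinearMap.det_toLin', ← LinearMap.det_toMatrix b, h1, Matrix.det_diagonal]

/-- the simultaneous eigenvectors of the matrices -/
theorem exists_eig {G : Type} [CommGroup G] [Finite G] (ρ : G →* GL κ ℂ) :
    ∃ (b : Module.Basis κ ℂ (κ → ℂ)) (χ : κ → MulChar G ℂ),
      ∀ (u : G) i, Eig (b i) (cM (ρ u)) (χ i u) := by
  let T : G →* Module.End ℂ (κ → ℂ) :=
    { toFun := fun u => Matrix.toLin' (cM (ρ u))
      map_one' := by
        rw [map_one, cM_one, Matrix.toLin'_one]
        rfl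
      map_mul' := fun x y => by
        rw [map_mul, cM_mul, Matrix.toLin'_mul]
        rfl }
  obtain ⟨b, χ, h⟩ := exists_basis T
  refine ⟨b, χ, fun u i => ?_⟩
  have := h u i
  exact this

end mat

end Pool.Agent.J4.H24.BT
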