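import Pool.Agent.J4.H24.BT.Main
import Pool.Agent.R431.B.Fin

/-!
# The `L`-functions of `E ⊗ V`, `E : y² + y = x³`, `V` a complex representation
-/

set_option autoImplicit false
set_option linter.unusedSectionVars false

namespace Pool.Agent.J4.H24.BT

open NumberField IsDedekindDomain Filter Topology

open scoped Classical

open Pool.Agent.Y696

open Pool.Agent.R431.B

section

variable {F K : Type} [Field F] [NumberField F] [IsCyclotomicExtension {3} ℚ F] [Field K]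
  [NumberField K] [Algebra F K] [IsGalois ℚ K]

/-- **the analytic part** -/
theorem analytic_part {n : ℕ} (hn : Module.finrank F K = 2 ^ n) {m : ℕ}
    (hm : ∀ p : ℕ, p.Prime → p ∣ m → ∀ x : ZMod p, x ^ 3 ≠ 2)
    {art : (𝓞 F ⧸ Ideal.span {(m : 𝓞 F)})ˣ →* Gal(K/F)} (hart : IsArtin (m : 𝓞 F) art)
    {κ : Type} [Fintype κ] [DecidableEq κ] (ρ : (K ≃ₐ[ℚ] K) →* GL κ ℂ) :
    ∃ L : ℂ → ℂ, MeromorphicOn L Set.univ ∧
      (∀ V : Nat.Primes → HeightOneSpectrum (𝓞 K),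
        (∀ p : Nat.Primes, ((p : ℕ) : 𝓞 K) ∈ (V p).asIdeal) → ∀ s : ℂ, 3 / 2 < s.re →
        HasProd (fun p : Nat.Primes => euler ρ (E27 ℤ) (V p) s p) (L s)) ∧
      AnalyticAt ℂ L 1 ∧ L 1 ≠ 0 ∧
      ∀ (Λ : PeriodPair) (Ω : ℂ), Cur Λ Ω → ((starRingEnd ℂ) Ω) ^ 6 = Ω ^ 6 →
        ∀ (Γ : Type) [LinearOrderedCommGroupWithZero Γ] (w : Valuation ℂ Γ), w 2 < 1 →
          w (L 1) = w Ω ^ Fintype.card κ := by
  have hgal : IsGalois F K := IsGalois.tower_top_of_isGalois ℚ F K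
  have hc : ∀ v₀ : HeightOneSpectrum (𝓞 F), (m : 𝓞 F) ∈ v₀.asIdeal →
      ∀ x : 𝓞 F, x ^ 3 - 2 ∉ v₀.asIdeal := fun v₀ hv x => Nc.cube hm v₀ hv x
  have hA := art_of hart
  let := commG hA
  obtain ⟨ζ, hζ⟩ := IsCyclotomicExtension.exists_isPrimitiveRoot ℚ F
    (Set.mem_singleton 3) (by norm_num)
  obtain ⟨σ, hσ⟩ := exists_emb hζ
  have hc2 : IsCoprime (m : 𝓞 F) 2 := by
    have := cop_of (c := (m : 𝓞 F)) (k := -2) (a := 0) (by ring) (by norm_num) hc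
    exact IsCoprime.neg_right_iff _ _ |>.1 this
  have hc3 : IsCoprime (m : 𝓞 F) 3 := by
    have := cop_of (c := (m : 𝓞 F)) (k := -3) (a := -1) (by ring) (by norm_num) hc
    exact IsCoprime.neg_right_iff _ _ |>.1 this
  have D := mkDat hn hA (isoE hζ σ hσ) (cube_ne hc) hc2 hc3 hc
  have hFD : FD (K := K) (G := Gal(K/F)) (inc F K) :=
    { act := fun τ x => rfl
      inj := inc_inj
      mod1 := fun p hp v hv h1 σ hσ => frob_mod1 hp hv h1 hσ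
      mod2 := fun p hp v hv h1 σ hσ => frob_mod2 hp hv h1 hσ
      quot := fun p hp v hv h3 σ hσ σ' hσ' => frob_quot hp hv h3 hσ hσ' }
  exact an_main ρ D hFD (map_natCast _ m) (m_ne hm) (m_mod hm)

/-- **everything** -/
theorem main {n : ℕ} (hn : Module.finrank F K = 2 ^ n) {m : ℕ}
    (hm : ∀ p : ℕ, p.Prime → p ∣ m → ∀ x : ZMod p, x ^ 3 ≠ 2)
    {art : (𝓞 F ⧸ Ideal.span {(m : 𝓞 F)})ˣ →* Gal(K/F)} (hart : IsArtin (m : 𝓞 F) art) :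
    Finite ((E27 ℤ).map (Int.castRingHom K)).toAffine.Point ∧
    ∀ Rp Cp : ℝ, Rp = 2 * ∫ x in {x : ℝ | 0 < Per.cubic (E27 ℤ) x}, 1 / Real.sqrt (Per.cubic (E27 ℤ) x) →
      Cp = 2 * (2 * ∫ x : ℂ, 1 / ‖Per.cubic (E27 ℤ) x‖) → 0 < Rp ∧ 0 < Cp ∧
    ∀ (κ : Type) [Fintype κ] [DecidableEq κ] (ρ : (K ≃ₐ[ℚ] K) →* GL κ ℂ),
    ∃ L : ℂ → ℂ, MeromorphicOn L Set.univ ∧
      (∀ V : Nat.Primes → HeightOneSpectrum (𝓞 K),
        (∀ p : Nat.Primes, ((p : ℕ) : 𝓞 K) ∈ (V p).asIdeal) → ∀ s : ℂ, 3 / 2 < s.re →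
        HasProd (fun p : Nat.Primes => euler ρ (E27 ℤ) (V p) s p) (L s)) ∧
      AnalyticAt ℂ L 1 ∧ L 1 ≠ 0 ∧
      ∀ (Γ : Type) [LinearOrderedCommGroupWithZero Γ] (w : Valuation ℂ Γ), w 2 < 1 →
        ∀ a b : ℕ, a + b = Fintype.card κ → w (L 1 / ((Rp ^ a * (Cp / Rp) ^ b : ℝ) : ℂ)) = 1 := by
  have hgal : IsGalois F K := IsGalois.tower_top_of_isGalois ℚ F K
  have hc : ∀ v₀ : HeightOneSpectrum (𝓞 F), (m : 𝓞 F) ∈ v₀.asIdeal →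
      ∀ x : 𝓞 F, x ^ 3 - 2 ∉ v₀.asIdeal := fun v₀ hv x => Nc.cube hm v₀ hv x
  obtain ⟨-, h1, -, -, -⟩ := all_art hn hart hc
  have hfin : Finite ((E27 ℤ).map (Int.castRingHom K)).toAffine.Point := by
    rw [map27]
    exact h1
  refine ⟨hfin, fun Rp Cp hRp hCp => ?_⟩
  obtain ⟨Ω₀, hΩ₀, hC₀⟩ := exists_cur
  obtain ⟨Ω, hC, hΩ⟩ := exists_om hC₀.g2 hC₀.g3
  obtain ⟨U, hU⟩ := exists_over_two
  obtain ⟨p1, p2, -, -⟩ := v_periods (Γ := U.ValueGroup) (v := U.valuation) hU hC hΩ hRp hCp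
  refine ⟨p1, p2, fun κ _ _ ρ => ?_⟩
  obtain ⟨L, l1, l2, l3, l4, l5⟩ := analytic_part hn hm hart ρ
  refine ⟨L, l1, l2, l3, l4, fun Γ _ w hw a b hab => ?_⟩
  obtain ⟨-, -, p3, p4⟩ := v_periods hw hC hΩ hRp hCp
  have h6 : w Ω ≠ 0 := (Valuation.ne_zero_iff _).2 hC.lat.ne
  have h7 : ((Rp ^ a * (Cp / Rp) ^ b : ℝ) : ℂ) = (Rp : ℂ) ^ a * ((Cp / Rp : ℝ) : ℂ) ^ b := by
    push_cast
    rfl
  rw [map_div₀, l5 _ Ω hC hΩ Γ w hw, h7, map_mul, map_pow, map_pow, p3, p4, ← pow_add, hab]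
  exact div_self (pow_ne_zero _ h6)

end

end Pool.Agent.J4.H24.BT
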