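import Pool.Agent.R431.B.Main
import Pool.Agent.J4.H24.BT.An

/-!
# The `L`-function of `E ⊗ M`
-/

set_option autoImplicit false
set_option linter.unusedSectionVars false

namespace Pool.Agent.J4.H24.BT

open NumberField IsDedekindDomain Filter Topology

open scoped Pointwise

open Pool.Agent.Y696 Pool.Agent.W192.HK Pool.Agent.TH936.CM Pool.Agent.TH936.PU

open Pool.Agent.W192.CM (nu)

open Pool.Agent.R431.B

section

variable {K : Type} [Field K] [NumberField K] [IsGalois ℚ K] {ι : eis →+* 𝓞 K} {G : Type}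
  [CommGroup G] [Finite G] [MulSemiringAction G (𝓞 K)] {c : eis}
  {art : (eis ⧸ (sp c : Ideal eis))ˣ →* G} {i : G →* (K ≃ₐ[ℚ] K)} {κ : Type} [Fintype κ] [DecidableEq κ]
  (ρ : (K ≃ₐ[ℚ] K) →* GL κ ℂ) {b : Module.Basis κ ℂ (κ → ℂ)}
  {χ : κ → MulChar G ℂ}

/-- the eigenvalues of the average of the Frobenius automorphisms -/
theorem frob_avg (hFD : FD i) (hb : ∀ (u : G) j, Eig (b j) (cM (ρ (i u))) (χ j u)) {p : ℕ}
    (hp : p.Prime) {v : HeightOneSpectrum (𝓞 K)} (hv : (p : 𝓞 K) ∈ v.asIdeal) (h1 : p % 3 = 1) :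
    ∃ l : κ → ℂ, (∀ j, Eig (b j) (frobM ρ v) (l j)) ∧
      ∀ j, l j = 0 ∨ ∃ τ : G, l j = χ j τ := by
  classical
  have hp3 : p ≠ 3 := by rintro rfl; norm_num at h1
  let T : Set G := {τ | i τ ∈ FrobSet v}
  let I : Set G := {j | ∀ x : 𝓞 K, j • x - x ∈ v.asIdeal}
  obtain ⟨σ₀, hσ₀⟩ := frob_nonempty v
  obtain ⟨τ₀, hτ₀⟩ := hFD.mod1 p hp v hv h1 σ₀ hσ₀
  have hT0 : τ₀ ∈ T := by
    show i τ₀ ∈ FrobSet v
    rw [hτ₀]
    exact hσ₀
  have hI1 : ∀ τ ∈ T, ∃ j ∈ I, j * τ₀ = τ := by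
    intro τ hτ
    obtain ⟨j, hj, hj2⟩ := hFD.quot p hp v hv hp3 _ hτ _ hT0
    refine ⟨j, hj2, ?_⟩
    apply hFD.inj
    rw [map_mul, hj]
    group
  have hI2 : ∀ j ∈ I, ∀ τ ∈ T, j * τ ∈ T := by
    intro j hj τ hτ
    show i (j * τ) ∈ FrobSet v
    rw [frob_iff hp hv]
    intro x
    have h2 := (frob_iff hp hv (i τ)).1 hτ x
    rw [hFD.act] at h2 ⊢
    have h3 := v.asIdeal.add_mem (hj (τ • x)) h2
    rw [sub_add_sub_cancel, ← mul_smul] at h3
    exact h3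
  let e : T ≃ FrobSet v :=
    Equiv.ofBijective (fun τ => ⟨i τ.1, τ.2⟩) ⟨fun x y hxy => by
      apply Subtype.ext
      apply hFD.inj
      exact congrArg Subtype.val hxy, fun σ => by
      obtain ⟨τ, hτ⟩ := hFD.mod1 p hp v hv h1 σ.1 σ.2
      exact ⟨⟨τ, by show i τ ∈ FrobSet v; rw [hτ]; exact σ.2⟩, Subtype.ext hτ⟩⟩
  let _ : Fintype T := Fintype.ofFinite _
  let _ : Fintype (FrobSet v) := Fintype.ofFinite _
  refine ⟨fun j => (Nat.card T : ℂ)⁻¹ * ∑ᶠ τ : T, (χ j).toMonoidHom τ.1, fun j => ?_, fun j => ?_⟩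
  · unfold frobM
    rw [← Nat.card_congr e]
    refine Eig.smul ?_ _
    rw [finsum_eq_sum_of_fintype, finsum_eq_sum_of_fintype, ← e.sum_comp]
    refine Eig.sum _ fun τ _ => ?_
    exact hb τ.1 j
  · rcases avg_char (χ j).toMonoidHom hT0 hI1 hI2 with h | h
    · exact Or.inl h
    · exact Or.inr ⟨τ₀, h⟩

/-- the factor with given eigenvalues -/
noncomputable def EF (l : κ → ℂ) (p : ℕ) (s : ℂ) : ℂ :=
  ∏ j, (1 - ((((p : ℤ) - pts (E27 ℤ) (ZMod p) : ℤ) : ℂ) * (p : ℂ) ^ (-s)) * l j +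
    ((p : ℂ) ^ (1 - 2 * s)) * l j ^ 2)

lemma euler_EF {l : κ → ℂ} {p : ℕ} (hp : p.Prime) (h3 : p ≠ 3)
    {v : HeightOneSpectrum (𝓞 K)} (hl : ∀ j, Eig (b j) (frobM ρ v) (l j)) (s : ℂ) :
    euler ρ (E27 ℤ) v s p = (EF l p s)⁻¹ := by
  unfold euler EF
  rw [if_neg (dvd_disc hp h3)]
  congr 1
  exact det_eig b fun j => ((Eig.one (b j)).sub ((hl j).smul _)).add (((hl j).pow 2).smul _)

lemma EF_diff (l : κ → ℂ) {p : ℕ} (hp : p.Prime) : Differentiable ℂ (EF l p) := by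
  have h0 : (p : ℂ) ≠ 0 := by exact_mod_cast hp.ne_zero
  have h1 : Differentiable ℂ (fun s : ℂ => (p : ℂ) ^ (-s)) := by
    intro z
    exact (differentiableAt_id.neg).const_cpow (Or.inl h0)
  have h2 : Differentiable ℂ (fun s : ℂ => (p : ℂ) ^ (1 - 2 * s)) := by
    intro z
    exact ((differentiableAt_const _).sub ((differentiableAt_const _).mul differentiableAt_id)).const_cpow
      (Or.inl h0)
  unfold EF
  refine Differentiable.fun_finsetProd fun j _ => ?_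
  exact ((differentiable_const _).sub (((differentiable_const _).mul h1).mul
    (differentiable_const _))).add (h2.mul (differentiable_const _))

/-- the value at one of a ramified factor -/
lemma v_EF (D : Dat ι G c art) {m : ℕ} (hc : c = (m : eis)) {p : ℕ} (hp : p.Prime)
    (hpm : p ∣ m) (h1 : p % 3 = 1) {l : κ → ℂ} (hl : ∀ j, l j = 0 ∨ ∃ τ : G, l j = χ j τ)
    {Γ : Type} [LinearOrderedCommGroupWithZero Γ] {w : Valuation ℂ Γ} (hw : w 2 < 1) :
    w (EF l p 1) = 1 := by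
  obtain ⟨v, hv⟩ := exists_place (K := K) hp
  have hP : (p : eis) ∈ (bel ι v).asIdeal := (mem_bel_nat v p).2 hv
  obtain ⟨π, hπ, hπ1, hN, hψ, -⟩ := over_mod1 hp hP h1
  have hcP : c ∈ (bel ι v).asIdeal := by
    rw [hc]
    obtain ⟨k, rfl⟩ := hpm
    rw [Nat.cast_mul]
    exact (bel ι v).asIdeal.mul_mem_right _ hP
  obtain ⟨π', hψ2, hcop, hval⟩ := v_psi (Γ := Γ) D hcP
  have hππ : π' = π := coe_inj' (hψ2.symm.trans hψ)
  rw [hππ] at hcop hval
  have k1 := hval w hw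
  have k2 := hval (vc w) (vc_two hw)
  rw [vc_apply, map_sub, map_one] at k2
  have k3 : w (π : ℂ) = 1 := v_cop hw hcop
  have k4 := v_cop (vc_two hw) hcop
  rw [vc_apply] at k4
  have hpc : (p : ℂ) = (π : ℂ) * (starRingEnd ℂ) (π : ℂ) := by
    have h2 := congrArg (fun t : eis => (t : ℂ)) hN
    push_cast at h2
    rw [cj_coe] at h2
    exact h2.symm
  have ha : ((((p : ℤ) - pts (E27 ℤ) (ZMod p) : ℤ) : ℂ)) = (π : ℂ) + (starRingEnd ℂ) (π : ℂ) := by
    push_cast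
    rw [pts_mod1 hp h1 hP hπ hπ1 hN]
    ring
  unfold EF
  rw [map_prod]
  refine Finset.prod_eq_one fun j _ => ?_
  have hlj : l j = 0 ∨ w (l j - 1) < 1 := by
    rcases hl j with h | ⟨τ, h⟩
    · exact Or.inl h
    · right
      obtain ⟨n, hn⟩ := D.pgrp
      refine v_root hw n _ ?_
      rw [h, ← map_pow, ← hn, pow_card_eq_one', map_one]
  have h2 := v_ram k1 k2 k3 k4 hlj hpc
  rw [cpow_quad hp, Complex.cpow_neg_one, ha]
  exact h2

/-- **the `L`-function** -/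
theorem an_main (D : Dat ι G c art) (hFD : FD i) {m : ℕ} (hc : c = (m : eis)) (hm0 : m ≠ 0)
    (hm3 : ∀ p : ℕ, p.Prime → p ∣ m → p % 3 = 1) :
    ∃ L : ℂ → ℂ, MeromorphicOn L Set.univ ∧
      (∀ V : Nat.Primes → HeightOneSpectrum (𝓞 K),
        (∀ p : Nat.Primes, ((p : ℕ) : 𝓞 K) ∈ (V p).asIdeal) → ∀ s : ℂ, 3 / 2 < s.re →
        HasProd (fun p : Nat.Primes => euler ρ (E27 ℤ) (V p) s p) (L s)) ∧
      AnalyticAt ℂ L 1 ∧ L 1 ≠ 0 ∧
      ∀ (Λ : PeriodPair) (Ω : ℂ), Cur Λ Ω → ((starRingEnd ℂ) Ω) ^ 6 = Ω ^ 6 →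
        ∀ (Γ : Type) [LinearOrderedCommGroupWithZero Γ] (w : Valuation ℂ Γ), w 2 < 1 →
          w (L 1) = w Ω ^ Fintype.card κ := by
  classical
  obtain ⟨b, χ, hb0⟩ := exists_eig (ρ.comp i)
  have hb : ∀ (u : G) j, Eig (b j) (cM (ρ (i u))) (χ j u) := hb0
  have hH := fun j : κ => hecke D.c_ne D.cop3 (η := eta art (χ j)) (et_eta_unit D (χ j))
  choose F hFd hFs hFl using hH
  -- the primes that divide `m`
  have hSfin : {p : Nat.Primes | (p : ℕ) ∣ m}.Finite := by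
    have h1 : {q : ℕ | q ∣ m}.Finite := (Nat.divisors m).finite_toSet.subset fun q hq =>
      Finset.mem_coe.2 (Nat.mem_divisors.2 ⟨hq, hm0⟩)
    exact Set.Finite.preimage (f := fun p : Nat.Primes => (p : ℕ))
      (Set.injOn_of_injective (fun a b h => Subtype.ext h)) h1
  let S : Finset Nat.Primes := hSfin.toFinset
  have hS : ∀ p : Nat.Primes, p ∈ S ↔ (p : ℕ) ∣ m := fun p => by
    rw [Set.Finite.mem_toFinset]
    exact Iff.rfl
  have hpl := fun p : Nat.Primes => exists_place (K := K) p.2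
  choose V₀ hV₀ using hpl
  have hl0 : ∀ p : Nat.Primes, ∃ l : κ → ℂ, (p : ℕ) ∣ m →
      (∀ j, Eig (b j) (frobM ρ (V₀ p)) (l j)) ∧ ∀ j, l j = 0 ∨ ∃ τ : G, l j = χ j τ := by
    intro p
    by_cases h : (p : ℕ) ∣ m
    · obtain ⟨l, h1, h2⟩ := frob_avg ρ hFD hb p.2 (hV₀ p) (hm3 p p.2 h)
      exact ⟨l, fun _ => ⟨h1, h2⟩⟩
    · exact ⟨fun _ => 0, fun h' => absurd h' h⟩
  choose l hl using hl0
  have hne3 : ∀ p : Nat.Primes, (p : ℕ) ∣ m → (p : ℕ) ≠ 3 := by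
    intro p hpm h3
    have := hm3 p p.2 hpm
    rw [h3] at this
    norm_num at this
  set L : ℂ → ℂ := fun s => (∏ p ∈ S, (EF (l p) p s)⁻¹) * ∏ j, F j s with hLdef
  have hent : Differentiable ℂ (fun s => ∏ j, F j s) :=
    Differentiable.fun_finsetProd fun j _ => hFd j
  have hval : ∀ (Λ : PeriodPair) (Ω : ℂ), Cur Λ Ω → ((starRingEnd ℂ) Ω) ^ 6 = Ω ^ 6 →
        ∀ (Γ : Type) [LinearOrderedCommGroupWithZero Γ] (w : Valuation ℂ Γ), w 2 < 1 →
          w (L 1) = w Ω ^ Fintype.card κ := by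
    intro Λ Ω hC hΩ Γ _ w hw
    rw [hLdef]
    show w ((∏ p ∈ S, (EF (l p) p 1)⁻¹) * ∏ j, F j 1) = _
    rw [map_mul, map_prod, map_prod]
    have h1 : ∀ p ∈ S, w ((EF (l p) p 1)⁻¹) = 1 := by
      intro p hp
      have hpm := (hS p).1 hp
      rw [map_inv₀, v_EF (K := K) (ι := ι) D hc p.2 hpm (hm3 p p.2 hpm) (hl p hpm).2 hw, inv_one]
    have h2 : ∀ j, w (F j 1) = w Ω := by
      intro j
      have h3 := v_F D (χ j) hC (vc_two hw) (hFl j Λ Ω hC.lat)
      rw [vc_apply, map_div₀, Complex.conj_conj, map_div₀] at h3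
      have h4 : w ((starRingEnd ℂ) Ω) = w Ω := v_six_eq hΩ
      rw [h4] at h3
      have h5 : w Ω ≠ 0 := (Valuation.ne_zero_iff _).2 hC.lat.ne
      exact (div_eq_one_iff_eq h5).1 h3
    rw [Finset.prod_eq_one h1, one_mul, Finset.prod_congr rfl fun j _ => h2 j, Finset.prod_const,
      Finset.card_univ]
  obtain ⟨U, hU⟩ := exists_over_two
  have hUG : ∀ p ∈ S, EF (l p) p 1 ≠ 0 := by
    intro p hp h0
    have hpm := (hS p).1 hp
    have := v_EF (K := K) (ι := ι) D hc p.2 hpm (hm3 p p.2 hpm) (hl p hpm).2 hU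
    rw [h0, map_zero] at this
    exact zero_ne_one this
  refine ⟨L, ?_, ?_, ?_, ?_, hval⟩
  · have h1 : MeromorphicOn (fun s => ∏ p ∈ S, (EF (l p) p s)⁻¹) Set.univ := by
      intro z _
      refine MeromorphicAt.fun_prod fun p _ => ?_
      exact ((EF_diff (l p) p.2).analyticAt z).meromorphicAt.inv
    intro z hz
    exact (h1 z hz).mul ((hent.analyticAt z).meromorphicAt)
  · intro V hV s hs
    have h1 : HasProd (fun P : HeightOneSpectrum eis => ∏ j, loc (eta art (χ j)) P s)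
        (∏ j, F j s) := by
      apply hasProd_prod
      intro j _
      exact hp_eta (et_eta_unit D (χ j)) (hFs j s hs)
    have h2 := hasProd_fib h1
    have h4 : HasProd (fun p : Nat.Primes => if p ∈ S then (EF (l p) p s)⁻¹ else 1)
        (∏ p ∈ S, (EF (l p) p s)⁻¹) := by
      have h6 := hasProd_prod_of_ne_finset_one (L := .unconditional _) (s := S)
        (f := fun p : Nat.Primes => if p ∈ S then (EF (l p) p s)⁻¹ else 1)
        (fun p hp => if_neg hp)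
      rw [Finset.prod_congr rfl (fun p hp => if_pos hp)] at h6
      exact h6
    refine (h4.mul h2).congr_fun fun p => ?_
    by_cases hp : p ∈ S
    · have hpm := (hS p).1 hp
      rw [if_pos hp, fib_c hc hpm, mul_one, ← euler_EF ρ p.2 (hne3 p hpm) (hl p hpm).1]
      exact euler_place ρ p.2 (hV₀ p) (hV p) _ s
    · rw [if_neg hp, one_mul]
      have hpm : ¬ (p : ℕ) ∣ m := fun h => hp ((hS p).2 h)
      have hcv : ι c ∉ (V p).asIdeal := by
        rw [hc, map_natCast]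
        exact not_mem_of_coprime ((Nat.Prime.coprime_iff_not_dvd p.2).2 hpm) (hV p)
      have h5 : (p : ℕ) % 3 < 3 := Nat.mod_lt _ (by norm_num)
      rcases (show (p : ℕ) % 3 = 0 ∨ (p : ℕ) % 3 = 1 ∨ (p : ℕ) % 3 = 2 by omega) with h | h | h
      · have h3 : (p : ℕ) = 3 := ((Nat.prime_dvd_prime_iff_eq Nat.prime_three p.2).1
          (Nat.dvd_of_mod_eq_zero h)).symm
        rw [h3]
        exact (factor_three ρ (V p) s).symm
      · exact (factor_mod1 ρ D hFD hc hb p.2 (hV p) h hcv s).symm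
      · exact (factor_mod2 ρ D hFD hb p.2 (hV p) h hcv s).symm
  · refine AnalyticAt.mul ?_ (hent.analyticAt 1)
    refine Finset.analyticAt_fun_prod _ fun p hp => ?_
    exact ((EF_diff (l p) p.2).analyticAt 1).inv (hUG p hp)
  · obtain ⟨Ω, hΩ, hC⟩ := exists_cur
    obtain ⟨Ω', hC', hΩ'⟩ := exists_om hC.g2 hC.g3
    intro h0
    have h1 := hval _ Ω' hC' hΩ' _ U.valuation hU
    rw [h0, map_zero] at h1
    have h5 : U.valuation Ω' ≠ 0 := (Valuation.ne_zero_iff _).2 hC'.lat.ne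
    exact pow_ne_zero _ h5 h1.symm

end

end Pool.Agent.J4.H24.BT
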